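import Pool.Agent.Helper81.BW.YM

/-!
# BW part AVG: upper bound of the averages for a walk with nonzero speed
-/

open MeasureTheory Filter Topology

namespace Pool.Agent.Helper81.BW.AVG

open Pool.Agent.Helper51.BW Pool.Agent.Helper81.BW.YM

theorem main (hDET : S_DET) (hREG : S_REG) : S_AVG := by
  intro d Ω _ μ _ p X hp hp1 hX i v hv hlim
  have hreg := hREG d Ω μ p X hp hp1 hX i v hv hlim
  set c0 : ℝ := (∑ j, |v j|) / 2 with hc0
  have hc0pos : 0 < c0 := by
    have : ∃ j, v j ≠ 0 := by
      by_contra h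
      push Not at h
      exact hv (funext h)
    obtain ⟨j, hj⟩ := this
    have : 0 < ∑ j, |v j| := by
      refine Finset.sum_pos' (fun _ _ => abs_nonneg _) ⟨j, Finset.mem_univ _, abs_pos.mpr hj⟩
    positivity
  refine ⟨1 / c0 + 3, fun K => ?_⟩
  -- good sets
  set A : ℕ → Set Ω := fun m => {ω | ∀ n ≥ m, c0 * n ≤ ∑ j, |(X i n ω j : ℝ)|} with hA
  have hAmeas : ∀ m, MeasurableSet (A m) := by
    intro m
    have : A m = ⋂ (n : ℕ) (_ : m ≤ n), {ω | c0 * n ≤ ∑ j, |(X i n ω j : ℝ)|} := by
      ext ω; simp [hA]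
    rw [this]
    refine MeasurableSet.iInter fun n => MeasurableSet.iInter fun _ => ?_
    refine measurableSet_le measurable_const ?_
    refine Finset.measurable_sum _ fun j _ => ?_
    have h1 : Measurable (fun ω => X i n ω j) := (measurable_pi_apply j).comp (hX.meas i n)
    have h2 : Measurable (fun z : ℤ => |(z : ℝ)|) := measurable_from_top
    exact h2.comp h1
  have hAmono : Monotone A := fun m m' hmm ω hω n hn => hω n (le_trans hmm hn)
  have hAfull : ∀ᵐ ω ∂μ, ∃ m, ω ∈ A m := by
    filter_upwards [hlim] with ω hω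
    rw [tendsto_pi_nhds] at hω
    have h1 : Tendsto (fun n : ℕ => ∑ j, |(X i n ω j : ℝ) / n|) atTop (𝓝 (∑ j, |v j|)) :=
      tendsto_finsetSum _ fun j _ => (hω j).abs
    have h2 : ∀ᶠ n : ℕ in atTop, c0 < ∑ j, |(X i n ω j : ℝ) / n| := by
      refine h1.eventually (lt_mem_nhds ?_)
      have : 0 < ∑ j, |v j| := by rw [hc0] at hc0pos; linarith
      rw [hc0]; linarith
    obtain ⟨m, hm⟩ := Filter.eventually_atTop.mp h2
    refine ⟨m + 1, fun n hn => ?_⟩
    have hn0 : (0 : ℝ) < n := by
      have : 0 < n := by omega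
      exact_mod_cast this
    have := (hm n (by omega)).le
    have e : ∑ j, |(X i n ω j : ℝ) / n| = (∑ j, |(X i n ω j : ℝ)|) / n := by
      rw [Finset.sum_div]
      refine Finset.sum_congr rfl fun j _ => ?_
      rw [abs_div, abs_of_pos hn0]
    rw [e, le_div_iff₀ hn0] at this
    exact this
  have hAlim : Tendsto (fun m => μ.real (A m)ᶜ) atTop (𝓝 0) := by
    have h1 : Tendsto (fun m => μ (A m)ᶜ) atTop (𝓝 (μ (⋂ m, (A m)ᶜ))) := by
      refine tendsto_measure_iInter_atTop (fun m => (hAmeas m).compl.nullMeasurableSet) ?_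
        ⟨0, measure_ne_top _ _⟩
      intro a b hab
      exact Set.compl_subset_compl.mpr (hAmono hab)
    have h2 : μ (⋂ m, (A m)ᶜ) = 0 := by
      have : (⋂ m, (A m)ᶜ) = {ω | ¬ ∃ m, ω ∈ A m} := by ext ω; simp
      rw [this]
      exact hAfull
    rw [h2] at h1
    exact (ENNReal.tendsto_toReal ENNReal.zero_ne_top).comp h1
  have hK : Tendsto (fun m => (K : ℝ) * μ.real (A m)ᶜ) atTop (𝓝 0) := by
    simpa using hAlim.const_mul (K : ℝ)
  obtain ⟨m, hm⟩ := (hK.eventually (gt_mem_nhds (zero_lt_one (α := ℝ)))).exists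
  filter_upwards [Filter.eventually_ge_atTop (m + 1)] with n hn
  have hnr : (m : ℝ) + 1 ≤ n := by exact_mod_cast hn
  have hn0 : (0 : ℝ) ≤ n := by positivity
  rw [← integral_finsetSum _ (fun j _ => ycnt_int μ (hX.meas 0) (hX.meas i) K j)]
  have hint : Integrable (fun ω => ∑ j ∈ Finset.range n,
      Ycnt K (fun n => X 0 n ω) (fun n => X i n ω) j) μ :=
    integrable_finsetSum _ fun j _ => ycnt_int μ (hX.meas 0) (hX.meas i) K j
  calc ∫ ω, ∑ j ∈ Finset.range n, Ycnt K (fun n => X 0 n ω) (fun n => X i n ω) j ∂μ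
      ≤ ∫ ω, ((m : ℝ) + n / c0 + 1) + (A m)ᶜ.indicator (fun _ => (K : ℝ) * n) ω ∂μ := by
        refine integral_mono_ae hint ?_ ?_
        · exact (integrable_const _).add
            ((integrable_const _).indicator (hAmeas m).compl)
        · filter_upwards [hreg] with ω hω
          have hpos : (0 : ℝ) ≤ m + n / c0 + 1 := by positivity
          by_cases hωA : ω ∈ A m
          · have h1 : (A m)ᶜ.indicator (fun _ => (K : ℝ) * n) ω = 0 :=
              Set.indicator_of_notMem (by simpa using hωA) _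
            rw [h1, add_zero]
            exact hDET d (fun n => X 0 n ω) (fun n => X i n ω) c0 m (hω.1 0 (Nat.zero_le _))
              hc0pos hωA K n
          · have h1 : (A m)ᶜ.indicator (fun _ => (K : ℝ) * n) ω = K * n :=
              Set.indicator_of_mem (by simpa using hωA) _
            rw [h1]
            have : ∑ j ∈ Finset.range n, Ycnt K (fun n => X 0 n ω) (fun n => X i n ω) j
                ≤ ∑ j ∈ Finset.range n, (K : ℝ) :=
              Finset.sum_le_sum fun j _ => ycnt_le _ _ _ _
            simp only [Finset.sum_const, Finset.card_range, nsmul_eq_mul] at this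
            nlinarith
    _ = ((m : ℝ) + n / c0 + 1) + (K : ℝ) * n * μ.real (A m)ᶜ := by
        rw [integral_add (integrable_const _)
          ((integrable_const _).indicator (hAmeas m).compl),
          integral_indicator_const _ (hAmeas m).compl]
        simp [mul_comm]
    _ ≤ (1 / c0 + 3) * n := by
        have h1 : (K : ℝ) * μ.real (A m)ᶜ * n ≤ 1 * n :=
          mul_le_mul_of_nonneg_right hm.le hn0
        have h2 : (n : ℝ) / c0 = 1 / c0 * n := by ring
        rw [h2]
        nlinarith

end Pool.Agent.Helper81.BW.AVG
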