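import Pool.Agent.Helper81.BW.YM

/-!
# BW part LOWR: lower bound of the truncated number of visits
-/

open MeasureTheory Filter Topology

namespace Pool.Agent.Helper81.BW.LOWR

open Pool.Agent.Helper51.BW Pool.Agent.Helper81.BW.YM

lemma ip_add {d : ℕ} (a : Fin d → ℝ) (z w : V d) : ip a (z + w) = ip a z + ip a w := by
  unfold ip
  rw [← Finset.sum_add_distrib]
  refine Finset.sum_congr rfl fun j _ => ?_
  rw [Pi.add_apply]; push_cast; ring

lemma ip_dir_le {d : ℕ} (a : Fin d → ℝ) (e : D d) : |ip a (dir e)| ≤ ∑ j, |a j| := by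
  unfold ip
  refine (Finset.abs_sum_le_sum_abs _ _).trans (Finset.sum_le_sum fun j _ => ?_)
  rw [abs_mul]
  have : |((dir e j : ℤ) : ℝ)| ≤ 1 := by
    unfold dir
    by_cases h : j = e.1
    · subst h
      rw [Pi.single_eq_same]
      split_ifs <;> simp
    · rw [Pi.single_eq_of_ne h]; simp
  calc |a j| * |((dir e j : ℤ) : ℝ)| ≤ |a j| * 1 :=
        mul_le_mul_of_nonneg_left this (abs_nonneg _)
    _ = |a j| := mul_one _

lemma ip_path {d : ℕ} (a : Fin d → ℝ) {S : ℕ → V d} (hS : PathHyp S) (j k : ℕ) :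
    ip a (S j - S (j + k)) ≤ k * ∑ j, |a j| := by
  induction k with
  | zero => simp [ip]
  | succ k ih =>
    obtain ⟨e, he⟩ := hS.2 (j + k)
    have h1 : S j - S (j + (k + 1)) + dir e = S j - S (j + k) := by
      rw [show j + (k + 1) = j + k + 1 by ring, he]; abel
    have h2 := ip_add a (S j - S (j + (k + 1))) (dir e)
    rw [h1] at h2
    have h3 := abs_le.mp (ip_dir_le a e)
    push_cast
    linarith [h3.1]

theorem main : S_LOWR := by
  intro d Ω mΩ μ _ p X hp hp1 hX i hreg pm W hpm hpi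
  set L : ℝ := ∑ j, |lhat (p i) j| with hL
  refine ⟨⌊pm / 4 * ∑ k ∈ W, Real.exp (k * L)⌋₊ + 1, fun K hK j N Θ hΘ hW hnew HYP => ?_⟩
  classical
  have hle : sig0 X ≤ mΩ := iSup_le fun s => (hX.meas 0 s).comap_le
  have hX0 : ∀ t, Measurable[sig0 X] (X 0 t) := fun t =>
    Measurable.mono (comap_measurable (X 0 t))
      (le_iSup (fun s : ℕ => MeasurableSpace.comap (X 0 s) inferInstance) t) le_rfl
  set φ : ℕ → Ω → ℝ := fun k ω => Real.exp (ip (lhat (p i)) (X 0 j ω - X 0 (j + k) ω)) with hφ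
  have hφm : ∀ k, Measurable (φ k) := by
    intro k
    have h1 : Measurable (fun ω => X 0 j ω - X 0 (j + k) ω) :=
      (hX.meas 0 j).sub (hX.meas 0 (j + k))
    have h2 : Measurable (fun z : V d => Real.exp (ip (lhat (p i)) z)) := measurable_of_countable _
    exact h2.comp h1
  have hφb : ∀ k, ∀ᵐ ω ∂μ, φ k ω ≤ Real.exp (k * L) := by
    intro k
    filter_upwards [hreg] with ω hω
    exact Real.exp_le_exp.mpr (ip_path _ (hω.1 0 (Nat.zero_le _)) j k)
  have hφi : ∀ k, Integrable (φ k) μ := by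
    intro k
    refine Integrable.of_bound (hφm k).aestronglyMeasurable (Real.exp (k * L)) ?_
    filter_upwards [hφb k] with ω hω
    rw [Real.norm_eq_abs, abs_of_nonneg (Real.exp_pos _).le]
    exact hω
  have hΘm : ∀ k ∈ W, MeasurableSet (Θ k) := fun k hk => hle _ (hΘ k hk)
  set g : Ω → ℝ := fun ω => pm / 8 * ∑ k ∈ W, (Θ k).indicator (φ k) ω with hg
  set f : Ω → ℝ := fun ω => Ycnt K (fun n => X 0 n ω) (fun n => X i n ω) j with hf
  have hfi : Integrable f μ := ycnt_int μ (hX.meas 0) (hX.meas i) K j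
  have hgi : Integrable g μ :=
    (integrable_finsetSum _ fun k hk => (hφi k).indicator (hΘm k hk)).const_mul _
  have hgint : pm / 8 * ∑ k ∈ W, ∫ ω in Θ k, φ k ω ∂μ = ∫ ω, g ω ∂μ := by
    rw [hg, integral_const_mul, integral_finsetSum _
      (fun k hk => (hφi k).indicator (hΘm k hk))]
    congr 1
    refine Finset.sum_congr rfl fun k hk => ?_
    rw [integral_indicator (hΘm k hk)]
  -- the partition
  let π : Ω → (Fin (N + 1) → V d) × Finset ℕ :=
    fun ω => (fun t => X 0 t ω, W.filter (fun k => ω ∈ Θ k))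
  let E : (Fin (N + 1) → V d) × Finset ℕ → Set Ω := fun a => π ⁻¹' {a}
  have hπ1 : ∀ ω ω', π ω = π ω' → ∀ t ≤ N, X 0 t ω = X 0 t ω' := by
    intro ω ω' h t ht
    exact congrFun (congrArg Prod.fst h) ⟨t, by omega⟩
  have hπ2 : ∀ ω ω', π ω = π ω' → ∀ k ∈ W, (ω ∈ Θ k ↔ ω' ∈ Θ k) := by
    intro ω ω' h k hk
    have h2 : W.filter (fun k => ω ∈ Θ k) = W.filter (fun k => ω' ∈ Θ k) :=
      congrArg Prod.snd h
    have h3 := Finset.ext_iff.mp h2 k
    simpa [hk] using h3
  have hEs : ∀ a, MeasurableSet[sig0 X] (E a) := by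
    intro a
    by_cases hne : (E a).Nonempty
    · obtain ⟨ω0, hω0⟩ := hne
      have hω0' : π ω0 = a := hω0
      have : E a = (⋂ t ∈ Finset.range (N + 1), {ω | X 0 t ω = X 0 t ω0}) ∩
          ⋂ k ∈ W, (if ω0 ∈ Θ k then Θ k else (Θ k)ᶜ) := by
        ext ω
        constructor
        · intro hω
          have hω' : π ω = π ω0 := (show π ω = a from hω).trans hω0'.symm
          refine ⟨?_, ?_⟩
          · simp only [Set.mem_iInter, Finset.mem_range, Set.mem_ofPred_eq]
            exact fun t ht => hπ1 ω ω0 hω' t (by omega)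
          · simp only [Set.mem_iInter]
            intro k hk
            have := hπ2 ω ω0 hω' k hk
            split_ifs with h0
            · exact this.mpr h0
            · exact fun h => h0 (this.mp h)
        · rintro ⟨h1, h2⟩
          simp only [Set.mem_iInter, Finset.mem_range, Set.mem_ofPred_eq] at h1 h2
          change π ω = a
          rw [← hω0']
          refine Prod.ext ?_ ?_
          · funext t
            exact h1 t t.2
          · change W.filter (fun k => ω ∈ Θ k) = W.filter (fun k => ω0 ∈ Θ k)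
            refine Finset.filter_congr fun k hk => ?_
            have := h2 k hk
            split_ifs at this with h0
            · exact ⟨fun _ => h0, fun _ => this⟩
            · exact ⟨fun h => absurd h this, fun h => absurd h h0⟩
      rw [this]
      refine MeasurableSet.inter ?_ ?_
      · refine Finset.measurableSet_biInter _ fun t _ => ?_
        exact (hX0 t) (measurableSet_singleton _)
      · refine Finset.measurableSet_biInter _ fun k hk => ?_
        split_ifs
        · exact hΘ k hk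
        · exact (hΘ k hk).compl
    · rw [Set.not_nonempty_iff_eq_empty.mp hne]
      exact @MeasurableSet.empty Ω (sig0 X)
  have hEm : ∀ a, MeasurableSet (E a) := fun a => hle _ (hEs a)
  have hEd : Pairwise (Function.onFun Disjoint E) := by
    intro a b hab
    refine Set.disjoint_left.mpr fun ω ha hb => hab ?_
    exact (show π ω = a from ha).symm.trans (show π ω = b from hb)
  have hEu : (⋃ a, E a) = Set.univ := by
    refine Set.eq_univ_of_forall fun ω => Set.mem_iUnion.mpr ⟨π ω, rfl⟩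
  have hsf := hasSum_integral_iUnion (μ := μ) (f := f) hEm hEd hfi.integrableOn
  have hsg := hasSum_integral_iUnion (μ := μ) (f := g) hEm hEd hgi.integrableOn
  rw [hEu, Measure.restrict_univ] at hsf hsg
  rw [hgint]
  refine hasSum_le (fun a => ?_) hsg hsf
  -- one cell
  by_cases h0 : μ (E a) = 0
  · rw [Measure.restrict_zero_set h0]; simp
  obtain ⟨ω0, hω0, hr0⟩ : ∃ ω0 ∈ E a, Reg X i ω0 := by
    by_contra hcon
    push Not at hcon
    apply h0
    refine measure_mono_null (fun ω hω => hcon ω hω) ?_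
    exact hreg
  have hω0' : π ω0 = a := hω0
  have hcell : ∀ ω ∈ E a, π ω = π ω0 := fun ω hω => (show π ω = a from hω).trans hω0'.symm
  set K' : Finset ℕ := W.filter (fun k => ω0 ∈ Θ k) with hK'
  set x : ℝ := pm / 4 * ∑ k ∈ K', Real.exp (ip (lhat (p i)) (X 0 j ω0 - X 0 (j + k) ω0))
    with hx
  have hx0 : 0 ≤ x := by
    rw [hx]
    exact mul_nonneg (by positivity) (Finset.sum_nonneg fun _ _ => (Real.exp_pos _).le)
  have hgE : ∀ ω ∈ E a, g ω = x / 2 := by
    intro ω hω
    have h1 : ∑ k ∈ W, (Θ k).indicator (φ k) ω =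
        ∑ k ∈ K', Real.exp (ip (lhat (p i)) (X 0 j ω0 - X 0 (j + k) ω0)) := by
      rw [hK', Finset.sum_filter]
      refine Finset.sum_congr rfl fun k hk => ?_
      have h2 := hπ2 ω ω0 (hcell ω hω) k hk
      by_cases h3 : ω0 ∈ Θ k
      · rw [if_pos h3, Set.indicator_of_mem (h2.mpr h3)]
        have hjk := hW k hk
        simp only [hφ]
        rw [hπ1 ω ω0 (hcell ω hω) j (by omega), hπ1 ω ω0 (hcell ω hω) (j + k) (by omega)]
      · rw [if_neg h3, Set.indicator_of_notMem (fun h => h3 (h2.mp h))]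
    simp only [hg]
    rw [h1, hx]; ring
  have hgI : ∫ ω in E a, g ω ∂μ = x / 2 * μ.real (E a) := by
    rw [setIntegral_congr_fun (hEm a) hgE, setIntegral_const]
    simp [mul_comm]
  rw [hgI]
  by_cases hKe : K'.Nonempty
  swap
  · have : x = 0 := by
      rw [hx, Finset.not_nonempty_iff_eq_empty.mp hKe]; simp
    rw [this]
    simp only [zero_div, zero_mul]
    exact integral_nonneg fun ω => ycnt_nonneg _ _ _ _
  obtain ⟨k0, hk0⟩ := hKe
  have hk0W : k0 ∈ W := (Finset.mem_filter.mp hk0).1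
  have hfE : ∀ ω ∈ E a, f ω = ∑ l ∈ Finset.Icc 1 K,
      {ω | HitsGE (fun n => X i n ω) l (X 0 j ω0)}.indicator (fun _ => (1 : ℝ)) ω := by
    intro ω hω
    have h1 : ω ∈ Θ k0 := (hπ2 ω ω0 (hcell ω hω) k0 hk0W).mpr (Finset.mem_filter.mp hk0).2
    have h2 := hnew k0 hk0W ω h1
    have h3 : X 0 j ω = X 0 j ω0 :=
      hπ1 ω ω0 (hcell ω hω) j (by have := hW k0 hk0W; omega)
    simp only [hf]
    unfold Ycnt
    rw [if_pos h2]
    refine Finset.sum_congr rfl fun l _ => ?_
    rw [Set.indicator_apply]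
    simp only [Set.mem_ofPred_eq, h3]
  have hHm : ∀ l, MeasurableSet {ω | HitsGE (fun n => X i n ω) l (X 0 j ω0)} := fun l =>
    hits_meas (Z := fun _ => X 0 j ω0) (hX.meas i) measurable_const l
  have hfI : ∫ ω in E a, f ω ∂μ = ∑ l ∈ Finset.Icc 1 K,
      μ.real (E a ∩ {ω | HitsGE (fun n => X i n ω) l (X 0 j ω0)}) := by
    rw [setIntegral_congr_fun (hEm a) hfE, integral_finsetSum]
    · refine Finset.sum_congr rfl fun l _ => ?_
      rw [integral_indicator_const _ (hHm l), measureReal_restrict_apply (hHm l), smul_eq_mul,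
        mul_one, Set.inter_comm]
    · intro l _
      exact (integrable_const _).indicator (hHm l)
  rw [hfI]
  have hn1K : ⌊x⌋₊ + 1 ≤ K := by
    refine le_trans ?_ hK
    refine Nat.succ_le_succ (Nat.floor_mono ?_)
    rw [hx]
    refine mul_le_mul_of_nonneg_left ?_ (by positivity)
    calc ∑ k ∈ K', Real.exp (ip (lhat (p i)) (X 0 j ω0 - X 0 (j + k) ω0))
        ≤ ∑ k ∈ K', Real.exp (k * L) := Finset.sum_le_sum fun k _ =>
          Real.exp_le_exp.mpr (ip_path _ (hr0.1 0 (Nat.zero_le _)) j k)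
      _ ≤ ∑ k ∈ W, Real.exp (k * L) := Finset.sum_le_sum_of_subset_of_nonneg
          (Finset.filter_subset _ _) fun _ _ _ => (Real.exp_pos _).le
  have hterm : ∀ l ∈ Finset.Icc 1 (⌊x⌋₊ + 1), μ.real (E a) / 2 ≤
      μ.real (E a ∩ {ω | HitsGE (fun n => X i n ω) l (X 0 j ω0)}) := by
    intro l hl
    rw [Finset.mem_Icc] at hl
    have h1 : (l : ℝ) - 1 ≤ x := by
      have h2 : (l : ℝ) ≤ ⌊x⌋₊ + 1 := by exact_mod_cast hl.2
      have h3 := Nat.floor_le hx0
      linarith
    have h4 := HYP K' (fun t => X 0 t ω0) (E a) l (Finset.filter_subset _ _) ⟨k0, hk0⟩ (hEs a)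
      (fun ω hω => ⟨hπ1 ω ω0 (hcell ω hω), fun k hk => (hπ2 ω ω0 (hcell ω hω) k
        (Finset.mem_filter.mp hk).1).mpr (Finset.mem_filter.mp hk).2⟩) hl.1 h1
    have h5 := ENNReal.toReal_mono (measure_ne_top _ _) h4
    rw [ENNReal.toReal_div] at h5
    exact h5
  calc x / 2 * μ.real (E a) ≤ ((⌊x⌋₊ + 1 : ℕ) : ℝ) * (μ.real (E a) / 2) := by
        have h1 := (Nat.lt_floor_add_one x).le
        have h2 : 0 ≤ μ.real (E a) := measureReal_nonneg
        push_cast
        nlinarith
    _ = ∑ l ∈ Finset.Icc 1 (⌊x⌋₊ + 1), μ.real (E a) / 2 := by simp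
    _ ≤ ∑ l ∈ Finset.Icc 1 (⌊x⌋₊ + 1),
        μ.real (E a ∩ {ω | HitsGE (fun n => X i n ω) l (X 0 j ω0)}) :=
        Finset.sum_le_sum hterm
    _ ≤ _ := Finset.sum_le_sum_of_subset_of_nonneg
        (Finset.Icc_subset_Icc_right hn1K) fun _ _ _ => measureReal_nonneg

end Pool.Agent.Helper81.BW.LOWR
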