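import Pool.Agent.Helper51.BW.Spec2
import Pool.Agent.Helper81.BW.LOWR

/-!
# BW part BADSUM: sum over the environment
-/

open MeasureTheory Filter Topology

namespace Pool.Agent.Helper81.BW.BADSUM

open Pool.Agent.Helper51.BW Pool.Agent.Helper81.BW.YM Pool.Agent.Helper81.BW.LOWR

lemma visB_meas {d : ℕ} {Ω : Type} [MeasurableSpace Ω] {Y : ℕ → Ω → V d}
    (hY : ∀ n, Measurable (Y n)) (l : ℕ) (z y : V d) :
    MeasurableSet {ω | VisB (fun n => Y n ω) l z y} := by
  have h1 : ∀ T : ℕ, Measurable (fun ω => ((Finset.range T).filter (fun n => Y n ω = z)).card) := by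
    intro T
    simp only [Finset.card_filter]
    refine Finset.measurable_sum _ fun n _ => ?_
    exact Measurable.ite ((hY n) (measurableSet_singleton _)) measurable_const measurable_const
  have h2 : {ω | VisB (fun n => Y n ω) l z y} =
      ⋃ n : ℕ, ({ω | Y n ω = y} ∩ (⋂ s ∈ Finset.range n, {ω | Y s ω = y}ᶜ)) ∩
        {ω | ((Finset.range n).filter (fun s => Y s ω = z)).card < l} := by
    ext ω
    simp [VisB, and_assoc]
  rw [h2]
  refine MeasurableSet.iUnion fun n => MeasurableSet.inter (MeasurableSet.inter ?_ ?_) ?_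
  · exact (hY n) (measurableSet_singleton _)
  · exact Finset.measurableSet_biInter _ fun s _ => ((hY s) (measurableSet_singleton _)).compl
  · exact measurableSet_lt (h1 n) measurable_const

theorem main (hREG : S_REG2) : S_BADSUM := by
  intro d Ω mΩ μ _ p X hp hp1 hX i h W Th j N κ η1 hκ hη hTh hW hQ
  classical
  have hreg := hREG d Ω μ p X hp hp1 hX
  set L : ℝ := ∑ c, |h c| with hL
  have hle : sig0 X ≤ mΩ := iSup_le fun s => (hX.meas 0 s).comap_le
  have hX0 : ∀ t, Measurable[sig0 X] (X 0 t) := fun t =>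
    Measurable.mono (comap_measurable (X 0 t))
      (le_iSup (fun s : ℕ => MeasurableSpace.comap (X 0 s) inferInstance) t) le_rfl
  set KK : Ω → Finset ℕ := fun ω => KKs W Th (fun n => X 0 n ω) with hKK
  set lv : Ω → ℕ := fun ω => lvl W h κ Th j (fun n => X 0 n ω) with hlv
  set F : Ω → ℝ := fun ω => (lv ω : ℝ) * ind (VisB (fun n => X i n ω) (lv ω) (X 0 j ω)
    (X 0 (j + (KK ω).sup id + 1) ω)) with hF
  have hmemKK : ∀ ω k, k ∈ KK ω ↔ k ∈ W ∧ Th k (fun n => X 0 n ω) := by
    intro ω k; simp [hKK, KKs]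
  -- the partition
  let π : Ω → (Fin (N + 1) → V d) × Finset ℕ := fun ω => (fun t => X 0 t ω, KK ω)
  let E : (Fin (N + 1) → V d) × Finset ℕ → Set Ω := fun a => π ⁻¹' {a}
  have hπ1 : ∀ ω ω', π ω = π ω' → ∀ t ≤ N, X 0 t ω = X 0 t ω' := by
    intro ω ω' h t ht
    exact congrFun (congrArg Prod.fst h) ⟨t, by omega⟩
  have hπ2 : ∀ ω ω', π ω = π ω' → KK ω = KK ω' := fun ω ω' h => congrArg Prod.snd h
  have hEs : ∀ a, MeasurableSet[sig0 X] (E a) := by
    intro a
    by_cases hne : (E a).Nonempty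
    · obtain ⟨ω0, hω0⟩ := hne
      have hω0' : π ω0 = a := hω0
      have : E a = (⋂ t ∈ Finset.range (N + 1), {ω | X 0 t ω = X 0 t ω0}) ∩
          ⋂ k ∈ W, (if k ∈ KK ω0 then {ω | Th k (fun n => X 0 n ω)}
            else {ω | Th k (fun n => X 0 n ω)}ᶜ) := by
        ext ω
        constructor
        · intro hω
          have hω' : π ω = π ω0 := (show π ω = a from hω).trans hω0'.symm
          refine ⟨?_, ?_⟩
          · simp only [Set.mem_iInter, Finset.mem_range, Set.mem_ofPred_eq]
            exact fun t ht => hπ1 ω ω0 hω' t (by omega)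
          · simp only [Set.mem_iInter]
            intro k hk
            have h1 := hπ2 ω ω0 hω'
            split_ifs with h0
            · rw [← h1] at h0
              exact ((hmemKK ω k).mp h0).2
            · rw [← h1] at h0
              exact fun hT => h0 ((hmemKK ω k).mpr ⟨hk, hT⟩)
        · rintro ⟨h1, h2⟩
          simp only [Set.mem_iInter, Finset.mem_range, Set.mem_ofPred_eq] at h1 h2
          change π ω = a
          rw [← hω0']
          refine Prod.ext ?_ ?_
          · funext t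
            exact h1 t t.2
          · change KK ω = KK ω0
            ext k
            constructor
            · intro hk
              obtain ⟨hkW, hT⟩ := (hmemKK ω k).mp hk
              have h3 := h2 k hkW
              by_contra h0
              rw [if_neg h0] at h3
              exact h3 hT
            · intro hk
              have hkW := ((hmemKK ω0 k).mp hk).1
              have h3 := h2 k hkW
              rw [if_pos hk] at h3
              exact (hmemKK ω k).mpr ⟨hkW, h3⟩
      rw [this]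
      refine MeasurableSet.inter ?_ ?_
      · refine Finset.measurableSet_biInter _ fun t _ => ?_
        exact (hX0 t) (measurableSet_singleton _)
      · refine Finset.measurableSet_biInter _ fun k hk => ?_
        split_ifs
        · exact hTh k hk
        · exact (hTh k hk).compl
    · rw [Set.not_nonempty_iff_eq_empty.mp hne]
      exact @MeasurableSet.empty Ω (sig0 X)
  have hEm : ∀ a, MeasurableSet (E a) := fun a => hle _ (hEs a)
  have hEd : Pairwise (Function.onFun Disjoint E) := by
    intro a b hab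
    refine Set.disjoint_left.mpr fun ω ha hb => hab ?_
    exact (show π ω = a from ha).symm.trans (show π ω = b from hb)
  have hEu : (⋃ a, E a) = Set.univ := by
    refine Set.eq_univ_of_forall fun ω => Set.mem_iUnion.mpr ⟨π ω, rfl⟩
  -- constant on the cells
  have hlvc : ∀ ω ω', π ω = π ω' → lv ω = lv ω' := by
    intro ω ω' hπ
    have h1 := hπ2 ω ω' hπ
    simp only [hKK] at h1
    simp only [hlv, lvl]
    rw [h1]
    split_ifs with hne
    · congr 3
      refine Finset.sum_congr rfl fun k hk => ?_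
      have hk' : k ∈ KK ω' := hk
      have hkW := hW k ((hmemKK ω' k).mp hk').1
      rw [hπ1 ω ω' hπ j (by omega), hπ1 ω ω' hπ (j + k) (by omega)]
    · rfl
  have hFc : ∀ ω ω0, π ω = π ω0 → F ω = (lv ω0 : ℝ) *
      {ω | VisB (fun n => X i n ω) (lv ω0) (X 0 j ω0)
        (X 0 (j + (KK ω0).sup id + 1) ω0)}.indicator (fun _ => (1 : ℝ)) ω := by
    intro ω ω0 hπ
    simp only [hF]
    rw [hlvc ω ω0 hπ, hπ2 ω ω0 hπ]
    by_cases hne : (KK ω0).Nonempty
    · obtain ⟨k, hk, hkm⟩ := Finset.exists_mem_eq_sup (KK ω0) hne id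
      have hkW := hW k ((hmemKK ω0 k).mp hk).1
      have hsup : (KK ω0).sup id = k := hkm
      rw [hsup, hπ1 ω ω0 hπ j (by omega), hπ1 ω ω0 hπ (j + k + 1) (by omega)]
      rw [Set.indicator_apply]
      unfold ind
      rfl
    · have h0 : lv ω0 = 0 := by
        simp only [hlv, lvl]
        exact if_neg hne
      rw [h0]; simp
  -- bounds
  have hbd : ∀ᵐ ω ∂μ, (lv ω : ℝ) ≤ κ * (∑ k ∈ W, Real.exp (k * L)) + 1 := by
    filter_upwards [hreg] with ω hω
    have hpos : 0 ≤ κ * (∑ k ∈ W, Real.exp (k * L)) :=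
      mul_nonneg hκ.le (Finset.sum_nonneg fun _ _ => (Real.exp_pos _).le)
    simp only [hlv, lvl]
    split_ifs with hne
    · have h1 : κ * ∑ k ∈ KKs W Th (fun n => X 0 n ω), Real.exp (ip h (X 0 j ω - X 0 (j + k) ω)) ≤
          κ * ∑ k ∈ W, Real.exp (k * L) := by
        refine mul_le_mul_of_nonneg_left ?_ hκ.le
        calc ∑ k ∈ KKs W Th (fun n => X 0 n ω), Real.exp (ip h (X 0 j ω - X 0 (j + k) ω))
            ≤ ∑ k ∈ KKs W Th (fun n => X 0 n ω), Real.exp (k * L) :=
              Finset.sum_le_sum fun k _ => Real.exp_le_exp.mpr (ip_path _ (hω.1 0) j k)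
          _ ≤ ∑ k ∈ W, Real.exp (k * L) := Finset.sum_le_sum_of_subset_of_nonneg
              (Finset.filter_subset _ _) fun _ _ _ => (Real.exp_pos _).le
      have h0 : 0 ≤ κ * ∑ k ∈ KKs W Th (fun n => X 0 n ω),
          Real.exp (ip h (X 0 j ω - X 0 (j + k) ω)) :=
        mul_nonneg hκ.le (Finset.sum_nonneg fun _ _ => (Real.exp_pos _).le)
      have h2 := Nat.floor_le h0
      push_cast
      linarith
    · push_cast; linarith
  have hFle : ∀ ω, 0 ≤ F ω ∧ F ω ≤ lv ω := by
    intro ω
    have h1 := ind_nonneg (VisB (fun n => X i n ω) (lv ω) (X 0 j ω)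
      (X 0 (j + (KK ω).sup id + 1) ω))
    have h2 := ind_le_one (VisB (fun n => X i n ω) (lv ω) (X 0 j ω)
      (X 0 (j + (KK ω).sup id + 1) ω))
    have h3 : (0 : ℝ) ≤ lv ω := Nat.cast_nonneg _
    exact ⟨mul_nonneg h3 h1, by simp only [hF]; nlinarith⟩
  have hVm : ∀ ω0, MeasurableSet {ω | VisB (fun n => X i n ω) (lv ω0) (X 0 j ω0)
        (X 0 (j + (KK ω0).sup id + 1) ω0)} := fun ω0 => visB_meas (hX.meas i) _ _ _
  have hlvm : AEStronglyMeasurable (fun ω => (lv ω : ℝ)) μ := by
    have h1 : AEStronglyMeasurable (fun ω => (lv ω : ℝ)) (μ.restrict (⋃ a, E a)) := by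
      rw [aestronglyMeasurable_iUnion_iff]
      intro a
      by_cases hne : (E a).Nonempty
      · obtain ⟨ω0, hω0⟩ := hne
        have hω0' : π ω0 = a := hω0
        refine (aestronglyMeasurable_const (b := (lv ω0 : ℝ))).congr ?_
        filter_upwards [ae_restrict_mem (hEm a)] with ω hω
        rw [hlvc ω ω0 ((show π ω = a from hω).trans hω0'.symm)]
      · rw [Set.not_nonempty_iff_eq_empty.mp hne, Measure.restrict_empty]
        exact aestronglyMeasurable_zero_measure _
    rwa [hEu, Measure.restrict_univ] at h1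
  have hFm : AEStronglyMeasurable F μ := by
    have h1 : AEStronglyMeasurable F (μ.restrict (⋃ a, E a)) := by
      rw [aestronglyMeasurable_iUnion_iff]
      intro a
      by_cases hne : (E a).Nonempty
      · obtain ⟨ω0, hω0⟩ := hne
        have hω0' : π ω0 = a := hω0
        have h2 : Measurable (fun ω => (lv ω0 : ℝ) *
            {ω | VisB (fun n => X i n ω) (lv ω0) (X 0 j ω0)
              (X 0 (j + (KK ω0).sup id + 1) ω0)}.indicator (fun _ => (1 : ℝ)) ω) :=
          (measurable_const.indicator (hVm ω0)).const_mul _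
        refine h2.aestronglyMeasurable.congr ?_
        filter_upwards [ae_restrict_mem (hEm a)] with ω hω
        rw [hFc ω ω0 ((show π ω = a from hω).trans hω0'.symm)]
      · rw [Set.not_nonempty_iff_eq_empty.mp hne, Measure.restrict_empty]
        exact aestronglyMeasurable_zero_measure _
    rwa [hEu, Measure.restrict_univ] at h1
  have hlvi : Integrable (fun ω => (lv ω : ℝ)) μ := by
    refine Integrable.of_bound hlvm (κ * (∑ k ∈ W, Real.exp (k * L)) + 1) ?_
    filter_upwards [hbd] with ω hω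
    rw [Real.norm_eq_abs, abs_of_nonneg (Nat.cast_nonneg _)]
    exact hω
  have hFi : Integrable F μ := by
    refine Integrable.of_bound hFm (κ * (∑ k ∈ W, Real.exp (k * L)) + 1) ?_
    filter_upwards [hbd] with ω hω
    rw [Real.norm_eq_abs, abs_of_nonneg (hFle ω).1]
    exact (hFle ω).2.trans hω
  have hsF := hasSum_integral_iUnion (μ := μ) (f := F) hEm hEd hFi.integrableOn
  have hsl := (hasSum_integral_iUnion (μ := μ) (f := fun ω => (lv ω : ℝ)) hEm hEd
    hlvi.integrableOn).mul_left η1
  rw [hEu, Measure.restrict_univ] at hsF hsl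
  refine hasSum_le (fun a => ?_) hsF hsl
  -- one cell
  by_cases h0 : μ (E a) = 0
  · rw [Measure.restrict_zero_set h0]; simp
  obtain ⟨ω0, hω0⟩ : (E a).Nonempty := by
    by_contra hcon
    rw [Set.not_nonempty_iff_eq_empty.mp hcon] at h0
    exact h0 measure_empty
  have hω0' : π ω0 = a := hω0
  have hcell : ∀ ω ∈ E a, π ω = π ω0 := fun ω hω => (show π ω = a from hω).trans hω0'.symm
  have hlI : ∫ ω in E a, (lv ω : ℝ) ∂μ = lv ω0 * μ.real (E a) := by
    rw [setIntegral_congr_fun (hEm a) (g := fun _ => (lv ω0 : ℝ))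
      (fun ω hω => by simp only [hlvc ω ω0 (hcell ω hω)]), setIntegral_const]
    simp [mul_comm]
  have hFI : ∫ ω in E a, F ω ∂μ = lv ω0 * μ.real (E a ∩ {ω | VisB (fun n => X i n ω) (lv ω0)
      (X 0 j ω0) (X 0 (j + (KK ω0).sup id + 1) ω0)}) := by
    rw [setIntegral_congr_fun (hEm a) (fun ω hω => hFc ω ω0 (hcell ω hω)),
      integral_const_mul, integral_indicator_const _ (hVm ω0),
      measureReal_restrict_apply (hVm ω0), smul_eq_mul, mul_one, Set.inter_comm]
  rw [hlI, hFI]
  by_cases hne : (KK ω0).Nonempty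
  swap
  · have h0 : lv ω0 = 0 := by
      simp only [hlv, lvl]
      exact if_neg hne
    rw [h0]; simp
  have hlv1 : lv ω0 = ⌊κ * ∑ k ∈ KK ω0, Real.exp (ip h (X 0 j ω0 - X 0 (j + k) ω0))⌋₊ + 1 := by
    simp only [hlv, lvl]
    exact if_pos hne
  have h1 := hQ (KK ω0) (fun t => X 0 t ω0) (E a) (lv ω0) (Finset.filter_subset _ _) hne (hEs a)
    (fun ω hω => ⟨hπ1 ω ω0 (hcell ω hω), fun k hk => by
      rw [← hπ2 ω ω0 (hcell ω hω), hmemKK ω k]
      exact ⟨fun h => h.2, fun h => ⟨hk, h⟩⟩⟩)
    (by rw [hlv1]; omega)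
    (by
      rw [hlv1]
      push_cast
      have h0 : 0 ≤ κ * ∑ k ∈ KK ω0, Real.exp (ip h (X 0 j ω0 - X 0 (j + k) ω0)) :=
        mul_nonneg hκ.le (Finset.sum_nonneg fun _ _ => (Real.exp_pos _).le)
      have := Nat.floor_le h0
      linarith)
  have h2 := ENNReal.toReal_mono (ENNReal.mul_ne_top ENNReal.ofReal_ne_top (measure_ne_top _ _)) h1
  rw [ENNReal.toReal_mul, ENNReal.toReal_ofReal hη] at h2
  have h3 : (0 : ℝ) ≤ lv ω0 := Nat.cast_nonneg _
  calc (lv ω0 : ℝ) * μ.real (E a ∩ {ω | VisB (fun n => X i n ω) (lv ω0)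
      (X 0 j ω0) (X 0 (j + (KK ω0).sup id + 1) ω0)})
      ≤ lv ω0 * (η1 * μ.real (E a)) := mul_le_mul_of_nonneg_left h2 h3
    _ = η1 * (lv ω0 * μ.real (E a)) := by ring

end Pool.Agent.Helper81.BW.BADSUM
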