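import Pool.Agent.Helper51.BW.Spec

/-!
# Measurability and bounds of the truncated number of visits
-/

open MeasureTheory Filter Topology

namespace Pool.Agent.Helper81.BW.YM

open Pool.Agent.Helper51.BW

variable {d : ℕ} {Ω : Type} [MeasurableSpace Ω]

lemma hits_meas {Y : ℕ → Ω → V d} (hY : ∀ n, Measurable (Y n)) {Z : Ω → V d}
    (hZ : Measurable Z) (l : ℕ) : MeasurableSet {ω | HitsGE (fun n => Y n ω) l (Z ω)} := by
  have h1 : ∀ T : ℕ, Measurable (fun ω => ((Finset.range T).filter (fun n => Y n ω = Z ω)).card) := by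
    intro T
    simp only [Finset.card_filter]
    refine Finset.measurable_sum _ fun n _ => ?_
    exact Measurable.ite (measurableSet_eq_fun (hY n) hZ) measurable_const measurable_const
  have h2 : {ω | HitsGE (fun n => Y n ω) l (Z ω)} =
      ⋃ T : ℕ, {ω | l ≤ ((Finset.range T).filter (fun n => Y n ω = Z ω)).card} := by
    ext ω; simp [HitsGE]
  rw [h2]
  exact MeasurableSet.iUnion fun T => measurableSet_le measurable_const (h1 T)

lemma ycnt_meas {X0 Y : ℕ → Ω → V d} (h0 : ∀ n, Measurable (X0 n)) (hY : ∀ n, Measurable (Y n))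
    (K j : ℕ) : Measurable (fun ω => Ycnt K (fun n => X0 n ω) (fun n => Y n ω) j) := by
  classical
  unfold Ycnt
  refine Measurable.ite ?_ ?_ measurable_const
  · have : {a | ∀ s < j, X0 s a ≠ X0 j a} = ⋂ s ∈ Finset.range j, {a | X0 s a = X0 j a}ᶜ := by
      ext a; simp
    rw [this]
    exact Finset.measurableSet_biInter _ fun s _ => (measurableSet_eq_fun (h0 s) (h0 j)).compl
  · refine Finset.measurable_sum _ fun l _ => ?_
    exact Measurable.ite (hits_meas hY (h0 j) l) measurable_const measurable_const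

lemma ycnt_nonneg (K : ℕ) (S Y : ℕ → V d) (j : ℕ) : 0 ≤ Ycnt K S Y j := by
  classical
  unfold Ycnt
  split_ifs
  · exact Finset.sum_nonneg fun l _ => by split_ifs <;> norm_num
  · exact le_rfl

lemma ycnt_le (K : ℕ) (S Y : ℕ → V d) (j : ℕ) : Ycnt K S Y j ≤ K := by
  classical
  unfold Ycnt
  split_ifs
  · calc _ ≤ ∑ l ∈ Finset.Icc 1 K, (1 : ℝ) :=
        Finset.sum_le_sum fun l _ => by split_ifs <;> norm_num
      _ = K := by simp
  · positivity

lemma ycnt_int (μ : Measure Ω) [IsProbabilityMeasure μ] {X0 Y : ℕ → Ω → V d}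
    (h0 : ∀ n, Measurable (X0 n)) (hY : ∀ n, Measurable (Y n)) (K j : ℕ) :
    Integrable (fun ω => Ycnt K (fun n => X0 n ω) (fun n => Y n ω) j) μ := by
  refine Integrable.of_bound (ycnt_meas h0 hY K j).aestronglyMeasurable K ?_
  refine Filter.Eventually.of_forall fun ω => ?_
  rw [Real.norm_eq_abs, abs_of_nonneg (ycnt_nonneg _ _ _ _)]
  exact ycnt_le _ _ _ _

end Pool.Agent.Helper81.BW.YM
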